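import Pool.Agent.Helper92.Ru.GoalsR

/-! Proof of `DivBound` (from `HeightLocal`). -/

set_option autoImplicit false

open MvPolynomial

namespace Pool.Agent.Helper9.Ru

open Pool.Agent.Helper92.Ru

section Local

variable {K : Type} [Field K]

/-- small root: all coefficients of the quotient are bounded -/
lemma locA (v : AbsoluteValue K ℝ) (ξ : K) (hξ : v ξ ≤ 1) (w : ℕ → ℕ → ℝ)
    (hw0 : ∀ n, w n 0 = 1) (hwn : ∀ n s, 0 ≤ w n s) (B : ℝ) (hB : 0 ≤ B)
    (H : ∀ (c : ℝ) (x y : K) (n s : ℕ), 0 ≤ c → c * v x ≤ w n s * B →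
      c * v y ≤ w n (s + 1) * B → c * v (x + y) ≤ w (n + 1) (s + 1) * B)
    (r : ℕ) (P : Polynomial K) (hP : P ≠ 0) (hPr : P.natDegree ≤ r)
    (hPB : ∀ i, v (P.coeff i) ≤ B) :
    ∀ (s : ℕ) (Q : Polynomial K), P = (Polynomial.X - Polynomial.C ξ) ^ s * Q →
      ∀ i, v (Q.coeff i) ≤ w (r - i) s * B := by
  intro s
  induction s with
  | zero =>
    intro Q hQ i
    rw [pow_zero, one_mul] at hQ
    rw [← hQ, hw0, one_mul]
    exact hPB i
  | succ s ih =>
    intro Q hQ
    have hQ' : P = (Polynomial.X - Polynomial.C ξ) ^ s *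
        ((Polynomial.X - Polynomial.C ξ) * Q) := by
      rw [hQ, pow_succ, mul_assoc]
    have h1 := ih _ hQ'
    have hQ0 : Q ≠ 0 := by
      rintro rfl
      exact hP (by rw [hQ, mul_zero])
    have hdeg : P.natDegree = (s + 1) + Q.natDegree := by
      rw [hQ, Polynomial.Monic.natDegree_mul' ((Polynomial.monic_X_sub_C ξ).pow _) hQ0,
        Polynomial.natDegree_pow, Polynomial.natDegree_X_sub_C, mul_one]
    have hbase : ∀ i, r ≤ i → v (Q.coeff i) ≤ w (r - i) (s + 1) * B := by
      intro i hi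
      rw [Polynomial.coeff_eq_zero_of_natDegree_lt (by omega), map_zero]
      exact mul_nonneg (hwn _ _) hB
    have hmain : ∀ n i, r ≤ i + n → v (Q.coeff i) ≤ w (r - i) (s + 1) * B := by
      intro n
      induction n with
      | zero => intro i hi; exact hbase i (by simpa using hi)
      | succ n ihn =>
        intro i hi
        rcases le_or_gt r i with h | h
        · exact hbase i h
        · have h2 := ihn (i + 1) (by omega)
          have h3 := h1 (i + 1)
          obtain ⟨m, hm⟩ : ∃ m, r - i = m + 1 := ⟨r - i - 1, by omega⟩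
          have hm' : r - (i + 1) = m := by omega
          rw [hm'] at h2 h3
          rw [hm]
          have h4 : Q.coeff i = ((Polynomial.X - Polynomial.C ξ) * Q).coeff (i + 1) +
              ξ * Q.coeff (i + 1) := by
            rw [sub_mul, Polynomial.coeff_sub, Polynomial.coeff_X_mul, Polynomial.coeff_C_mul]
            ring
          rw [h4]
          have h5 := H 1 (((Polynomial.X - Polynomial.C ξ) * Q).coeff (i + 1))
            (ξ * Q.coeff (i + 1)) m s zero_le_one (by rwa [one_mul]) (by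
              rw [one_mul, map_mul]
              calc v ξ * v (Q.coeff (i + 1)) ≤ 1 * v (Q.coeff (i + 1)) :=
                    mul_le_mul_of_nonneg_right hξ (v.nonneg _)
                _ ≤ _ := by rw [one_mul]; exact h2)
          rwa [one_mul] at h5
    intro i
    exact hmain r i (by omega)

/-- large root -/
lemma locB (v : AbsoluteValue K ℝ) (ξ : K) (hξ : 1 ≤ v ξ) (w : ℕ → ℕ → ℝ)
    (hw0 : ∀ n, w n 0 = 1) (hws : ∀ s, w s s = 1) (B : ℝ)
    (H : ∀ (c : ℝ) (x y : K) (n s : ℕ), 0 ≤ c → c * v x ≤ w n s * B →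
      c * v y ≤ w n (s + 1) * B → c * v (x + y) ≤ w (n + 1) (s + 1) * B)
    (P : Polynomial K)
    (hPB : ∀ i, v (P.coeff i) ≤ B) :
    ∀ (s : ℕ) (Q : Polynomial K), P = (Polynomial.X - Polynomial.C ξ) ^ s * Q →
      ∀ i, (v ξ) ^ s * v (Q.coeff i) ≤ w (i + s) s * B := by
  intro s
  induction s with
  | zero =>
    intro Q hQ i
    rw [pow_zero, one_mul] at hQ
    rw [← hQ, hw0, one_mul, pow_zero, one_mul]
    exact hPB i
  | succ s ih =>
    intro Q hQ
    have hQ' : P = (Polynomial.X - Polynomial.C ξ) ^ s *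
        ((Polynomial.X - Polynomial.C ξ) * Q) := by
      rw [hQ, pow_succ, mul_assoc]
    have h1 := ih _ hQ'
    have hv0 : 0 ≤ v ξ := v.nonneg _
    intro i
    induction i with
    | zero =>
      have h2 := h1 0
      have h3 : ((Polynomial.X - Polynomial.C ξ) * Q).coeff 0 = -(ξ * Q.coeff 0) := by
        rw [sub_mul, Polynomial.coeff_sub, Polynomial.coeff_C_mul]
        simp
      rw [h3, map_neg_eq_map, map_mul, zero_add, hws] at h2
      rw [zero_add, hws, pow_succ, mul_assoc]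
      exact h2
    | succ i ihi =>
      have h2 := h1 (i + 1)
      have h3 : ξ * Q.coeff (i + 1) =
          -(((Polynomial.X - Polynomial.C ξ) * Q).coeff (i + 1)) + Q.coeff i := by
        rw [sub_mul, Polynomial.coeff_sub, Polynomial.coeff_X_mul, Polynomial.coeff_C_mul]
        ring
      have h4 : (v ξ) ^ (s + 1) * v (Q.coeff (i + 1)) = (v ξ) ^ s * v (ξ * Q.coeff (i + 1)) := by
        rw [map_mul, pow_succ, mul_assoc]
      rw [h4, h3]
      have h5 := H ((v ξ) ^ s) (-(((Polynomial.X - Polynomial.C ξ) * Q).coeff (i + 1)))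
        (Q.coeff i) (i + 1 + s) s (by positivity) (by rwa [map_neg_eq_map]) (by
          have h6 : (v ξ) ^ s * v (Q.coeff i) ≤ (v ξ) ^ (s + 1) * v (Q.coeff i) :=
            mul_le_mul_of_nonneg_right (pow_le_pow_right₀ hξ (Nat.le_succ s)) (v.nonneg _)
          refine h6.trans ?_
          have : i + 1 + s = i + (s + 1) := by ring
          rw [this]; exact ihi)
      have : i + 1 + (s + 1) = i + 1 + s + 1 := by ring
      rw [this]
      exact h5

/-- the local estimate in both cases together -/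
lemma locAB (v : AbsoluteValue K ℝ) (ξ : K) (w : ℕ → ℕ → ℝ)
    (hw0 : ∀ n, w n 0 = 1) (hws : ∀ s, w s s = 1) (hwn : ∀ n s, 0 ≤ w n s) (B : ℝ) (hB : 0 ≤ B)
    (H : ∀ (c : ℝ) (x y : K) (n s : ℕ), 0 ≤ c → c * v x ≤ w n s * B →
      c * v y ≤ w n (s + 1) * B → c * v (x + y) ≤ w (n + 1) (s + 1) * B)
    (r : ℕ) (P : Polynomial K) (hP : P ≠ 0) (hPr : P.natDegree ≤ r)
    (hPB : ∀ i, v (P.coeff i) ≤ B) (c : ℝ) (hc0 : 0 ≤ c) (hc : ∀ n s, n ≤ r → w n s ≤ c)
    (s : ℕ) (Q : Polynomial K) (hQ : P = (Polynomial.X - Polynomial.C ξ) ^ s * Q) (i : ℕ) :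
    v (Q.coeff i) ≤ c * B ∧ v (ξ ^ s * Q.coeff i) ≤ c * B := by
  have hQ0 : Q ≠ 0 := by
    rintro rfl
    exact hP (by rw [hQ, mul_zero])
  have hdeg : P.natDegree = s + Q.natDegree := by
    rw [hQ, Polynomial.Monic.natDegree_mul' ((Polynomial.monic_X_sub_C ξ).pow _) hQ0,
      Polynomial.natDegree_pow, Polynomial.natDegree_X_sub_C, mul_one]
  by_cases hi : Q.coeff i = 0
  · rw [hi, mul_zero, map_zero]
    exact ⟨mul_nonneg hc0 hB, mul_nonneg hc0 hB⟩
  have hi' : i ≤ Q.natDegree := Polynomial.le_natDegree_of_ne_zero hi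
  have hv0 : 0 ≤ v ξ := v.nonneg _
  rw [map_mul, map_pow]
  rcases le_total (v ξ) 1 with h | h
  · have h1 := locA v ξ h w hw0 hwn B hB H r P hP hPr hPB s Q hQ i
    have h2 : v (Q.coeff i) ≤ c * B :=
      h1.trans (mul_le_mul_of_nonneg_right (hc _ _ (by omega)) hB)
    refine ⟨h2, le_trans ?_ h2⟩
    calc (v ξ) ^ s * v (Q.coeff i) ≤ 1 * v (Q.coeff i) :=
          mul_le_mul_of_nonneg_right (pow_le_one₀ hv0 h) (v.nonneg _)
      _ = _ := one_mul _
  · have h1 := locB v ξ h w hw0 hws B H P hPB s Q hQ i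
    have h2 : (v ξ) ^ s * v (Q.coeff i) ≤ c * B :=
      h1.trans (mul_le_mul_of_nonneg_right (hc _ _ (by omega)) hB)
    refine ⟨le_trans ?_ h2, h2⟩
    calc v (Q.coeff i) = 1 * v (Q.coeff i) := (one_mul _).symm
      _ ≤ _ := mul_le_mul_of_nonneg_right (one_le_pow₀ h) (v.nonneg _)

/-- archimedean version -/
lemma loc_arch (v : AbsoluteValue K ℝ) (ξ : K) (B : ℝ) (hB : 0 ≤ B)
    (r : ℕ) (P : Polynomial K) (hP : P ≠ 0) (hPr : P.natDegree ≤ r)
    (hPB : ∀ i, v (P.coeff i) ≤ B)
    (s : ℕ) (Q : Polynomial K) (hQ : P = (Polynomial.X - Polynomial.C ξ) ^ s * Q) (i : ℕ) :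
    v (Q.coeff i) ≤ 2 ^ r * B ∧ v (ξ ^ s * Q.coeff i) ≤ 2 ^ r * B := by
  refine locAB v ξ (fun n s => (n.choose s : ℝ)) (fun n => by simp) (fun s => by simp)
    (fun n s => by positivity) B hB ?_ r P hP hPr hPB (2 ^ r) (by positivity) ?_ s Q hQ i
  · intro c x y n s hc h1 h2
    have h3 : c * v (x + y) ≤ c * v x + c * v y := by
      rw [← mul_add]
      exact mul_le_mul_of_nonneg_left (v.add_le x y) hc
    have h4 : (((n + 1).choose (s + 1) : ℕ) : ℝ) = (n.choose s : ℝ) + (n.choose (s + 1) : ℝ) := by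
      rw [Nat.choose_succ_succ]; push_cast; ring
    rw [h4, add_mul]
    linarith
  · intro n s hn
    have h1 : n.choose s ≤ 2 ^ n := Nat.choose_le_two_pow n s
    have h2 : (2 : ℕ) ^ n ≤ 2 ^ r := Nat.pow_le_pow_right (by norm_num) hn
    exact_mod_cast h1.trans h2

/-- nonarchimedean version -/
lemma loc_nonarch (v : AbsoluteValue K ℝ) (hv : ∀ x y, v (x + y) ≤ max (v x) (v y)) (ξ : K)
    (B : ℝ) (hB : 0 ≤ B)
    (r : ℕ) (P : Polynomial K) (hP : P ≠ 0) (hPr : P.natDegree ≤ r)
    (hPB : ∀ i, v (P.coeff i) ≤ B)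
    (s : ℕ) (Q : Polynomial K) (hQ : P = (Polynomial.X - Polynomial.C ξ) ^ s * Q) (i : ℕ) :
    v (Q.coeff i) ≤ B ∧ v (ξ ^ s * Q.coeff i) ≤ B := by
  have := locAB v ξ (fun n s => 1) (fun n => rfl) (fun s => rfl)
    (fun n s => zero_le_one) B hB ?_ r P hP hPr hPB 1 zero_le_one (fun _ _ _ => le_refl _) s Q hQ i
  · simpa using this
  · intro c x y n s hc h1 h2
    simp only [one_mul] at *
    refine (mul_le_mul_of_nonneg_left (hv x y) hc).trans ?_
    rw [mul_max_of_nonneg _ _ hc]
    exact max_le h1 h2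

end Local

theorem divBound (HL : HeightLocal) : DivBound := by
  intro k _ _ ξ s r p hp hdeg hind
  classical
  set Φ := MvPolynomial.uniqueAlgEquiv k (Fin 1) with hΦ
  set P := Φ p with hPdef
  have hP0 : P ≠ 0 := by
    intro h
    exact hp ((map_eq_zero_iff Φ Φ.injective).1 h)
  have hcoef : ∀ (q : MvPolynomial (Fin 1) k) (n : ℕ),
      (Φ q).coeff n = coeff (Finsupp.single default n) q := fun q n =>
    MvPolynomial.coeff_uniqueAlgEquiv k q n
  -- degree
  have hPr : P.natDegree ≤ r := by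
    rw [Polynomial.natDegree_le_iff_coeff_eq_zero]
    intro N hN
    rw [hcoef]
    by_contra h
    have h1 : Finsupp.single (default : Fin 1) N ∈ p.support := MvPolynomial.mem_support_iff.2 h
    have h2 := MvPolynomial.monomial_le_degreeOf (0 : Fin 1) h1
    have h3 : (Finsupp.single (default : Fin 1) N) 0 = N := by
      rw [show (default : Fin 1) = 0 from rfl, Finsupp.single_eq_same]
    omega
  -- shift
  have hshift : Φ (shiftP (fun _ => ξ) p) = P.comp (Polynomial.X + Polynomial.C ξ) := by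
    have h1 : (Φ : MvPolynomial (Fin 1) k →ₐ[k] Polynomial k).comp (shiftP (fun _ => ξ)) =
        (Polynomial.aeval (Polynomial.X + Polynomial.C ξ)).comp
          (Φ : MvPolynomial (Fin 1) k →ₐ[k] Polynomial k) := by
      apply MvPolynomial.algHom_ext
      intro i
      simp [shiftP, hΦ, MvPolynomial.uniqueAlgEquiv]
    have h2 := DFunLike.congr_fun h1 p
    simpa [Polynomial.comp, Polynomial.aeval_def] using h2
  have hdvd1 : Polynomial.X ^ s ∣ P.comp (Polynomial.X + Polynomial.C ξ) := by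
    rw [Polynomial.X_pow_dvd_iff]
    intro d hd
    rw [← hshift, hcoef]
    by_contra h
    have h1 : Finsupp.single (default : Fin 1) d ∈ (shiftP (fun _ => ξ) p).support :=
      MvPolynomial.mem_support_iff.2 h
    have h2 := hind _ h1
    have h3 : (Finsupp.single (default : Fin 1) d) 0 = d := by
      rw [show (default : Fin 1) = 0 from rfl, Finsupp.single_eq_same]
    omega
  obtain ⟨Q1, hQ1⟩ := hdvd1
  set Q := Q1.comp (Polynomial.X - Polynomial.C ξ) with hQdef
  have hPQ : P = (Polynomial.X - Polynomial.C ξ) ^ s * Q := by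
    have h1 := congrArg (fun R : Polynomial k => R.comp (Polynomial.X - Polynomial.C ξ)) hQ1
    simp only [Polynomial.comp_assoc, Polynomial.add_comp, Polynomial.X_comp,
      Polynomial.C_comp, sub_add_cancel, Polynomial.comp_X, Polynomial.mul_comp,
      Polynomial.X_pow_comp] at h1
    exact h1
  have hQ0 : Q ≠ 0 := by
    intro h
    exact hP0 (by rw [hPQ, h, mul_zero])
  have hdegQ : P.natDegree = s + Q.natDegree := by
    rw [hPQ, Polynomial.Monic.natDegree_mul' ((Polynomial.monic_X_sub_C ξ).pow _) hQ0,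
      Polynomial.natDegree_pow, Polynomial.natDegree_X_sub_C, mul_one]
  -- vectors
  set y : p.support → k := fun e => coeff e.1 p with hy
  have hy0 : y ≠ 0 := by
    obtain ⟨e, he⟩ := (MvPolynomial.support_nonempty).2 hp
    intro h
    have := congrFun h ⟨e, he⟩
    exact (MvPolynomial.mem_support_iff.1 he) this
  have hbd : ∀ (v : AbsoluteValue k ℝ) (i : ℕ), v (P.coeff i) ≤ ⨆ j, v (y j) := by
    intro v i
    by_cases h : P.coeff i = 0
    · rw [h, map_zero]
      exact Real.iSup_nonneg (fun j => v.nonneg _)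
    · rw [hcoef] at h ⊢
      exact le_ciSup (f := fun j => v (y j)) (Set.finite_range _).bddAbove
        ⟨Finsupp.single default i, MvPolynomial.mem_support_iff.2 h⟩
  set z : Fin (r + 1) → k := fun i => Q.coeff i with hz
  have hz0 : z ≠ 0 := by
    intro h
    apply hQ0
    have h1 := congrFun h ⟨Q.natDegree, by omega⟩
    simp only [hz, Pi.zero_apply] at h1
    exact Polynomial.leadingCoeff_eq_zero.1 h1
  have hx0 : (![ξ ^ s, 1] : Fin 2 → k) ≠ 0 := by
    intro h
    have := congrFun h 1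
    simp at this
  have hmul := Height.mulHeight_fun_mul_eq hx0 hz0
  have hloc := HL k (Fin 2 × Fin (r + 1)) p.support
    (fun a : Fin 2 × Fin (r + 1) => (![ξ ^ s, 1] : Fin 2 → k) a.1 * z a.2) y 1 (2 ^ r) hy0
    (one_le_pow₀ (by norm_num)) ?_ ?_
  · rw [hmul, pow_one, ← Height.mulHeight₁_eq_mulHeight, Height.mulHeight₁_pow, ← pow_mul] at hloc
    have h1 : (1 : ℝ) ≤ Height.mulHeight z := Height.one_le_mulHeight z
    have h2 : 0 ≤ Height.mulHeight₁ ξ ^ s := pow_nonneg (Height.mulHeight₁_nonneg ξ) s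
    calc Height.mulHeight₁ ξ ^ s = Height.mulHeight₁ ξ ^ s * 1 := (mul_one _).symm
      _ ≤ Height.mulHeight₁ ξ ^ s * Height.mulHeight z := mul_le_mul_of_nonneg_left h1 h2
      _ ≤ _ := hloc
  · intro v a
    have h1 := loc_arch v.val ξ (⨆ j, v (y j)) (Real.iSup_nonneg (fun j => v.val.nonneg _)) r P hP0
      hPr (fun i => hbd v.val i) s Q hPQ a.2
    rw [pow_one]
    rcases a with ⟨a, i⟩
    fin_cases a
    · exact h1.2
    · change v ((1 : k) * Q.coeff i) ≤ _
      rw [one_mul]
      exact h1.1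
  · intro v a
    have h1 := loc_nonarch v.val (fun x y => NumberField.FinitePlace.add_le v x y) ξ
      (⨆ j, v (y j)) (Real.iSup_nonneg (fun j => v.val.nonneg _)) r P hP0
      hPr (fun i => hbd v.val i) s Q hPQ a.2
    rw [pow_one]
    rcases a with ⟨a, i⟩
    fin_cases a
    · exact h1.2
    · change v ((1 : k) * Q.coeff i) ≤ _
      rw [one_mul]
      exact h1.1

end Pool.Agent.Helper9.Ru
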